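import Pool.Agent.ER.GraphCode

/-!
# Long and short edges on complete bipartite graphs: definitions
-/

namespace Pool.Agent.NPC.L5h57.LS

open Pool.Agent.NPC Pool.Agent.NPC.ER

/-- The Euclidean plane. -/
abbrev Plane : Type := EuclideanSpace ℝ (Fin 2)

/-- The straight-line drawing of `G` with the vertex `v` at the point `p v` is non-degenerate:
distinct vertices go to distinct points, and no vertex lies in the relative interior of the segment
which represents an edge. -/
def NonDegenerate {V : Type*} (G : SimpleGraph V) (p : V → Plane) : Prop :=
  Function.Injective p ∧ ∀ u v, G.Adj u v → ∀ w, p w ∉ openSegment ℝ (p u) (p v)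

/-- The graph with the short edges `S` and the long edges `L` has a non-degenerate straight-line
drawing in which the short edges have length at most `1` and the long edges have length greater
than `1`. -/
def Realizable {V : Type*} (S L : SimpleGraph V) : Prop :=
  ∃ p : V → Plane, NonDegenerate (S ⊔ L) p ∧ (∀ u v, S.Adj u v → dist (p u) (p v) ≤ 1) ∧
    ∀ u v, L.Adj u v → 1 < dist (p u) (p v)

/-- `G` is isomorphic to a complete bipartite graph `K_{m,n}`. -/
def IsCompleteBipartite {V : Type*} (G : SimpleGraph V) : Prop :=
  ∃ m n : ℕ, Nonempty (G ≃g completeBipartiteGraph (Fin m) (Fin n))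

/-- Instances: the list of the vertices (natural numbers, written in binary), the list of the short
edges and the list of the long edges (pairs of vertices). -/
abbrev Inst : Type := List ℕ × List (ℕ × ℕ) × List (ℕ × ℕ)

/-- The code of the graph of the short edges. -/
def short (I : Inst) : GCode := (I.1, I.2.1)

/-- The code of the graph of the long edges. -/
def long (I : Inst) : GCode := (I.1, I.2.2)

/-- The graph of the short edges. -/
def shortG (I : Inst) : SimpleGraph {v : ℕ // v ∈ I.1} := (short I).graph

/-- The graph of the long edges. -/
def longG (I : Inst) : SimpleGraph {v : ℕ // v ∈ I.1} := (long I).graph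

/-- The instance is the code of a complete bipartite graph whose edge set is partitioned into short
and long edges. -/
def Valid (I : Inst) : Prop :=
  (short I).WF ∧ (long I).WF ∧ Disjoint (shortG I) (longG I) ∧
    IsCompleteBipartite (shortG I ⊔ longG I)

/-- Long/short edge realizability on complete bipartite graphs. -/
def BipLongShort (I : Inst) : Prop := Valid I ∧ Realizable (shortG I) (longG I)

end Pool.Agent.NPC.L5h57.LS
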