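import Pool.Agent.L5helper57.LS.Defs
import Pool.Agent.H625R2.UnitN

/-!
# Long and short edges on complete bipartite graphs: geometry
-/

namespace Pool.Agent.NPC.L5h57.LS

open scoped RealInnerProductSpace Topology
open Filter

/-- Twice the oriented area of a triangle. -/
def cross (a b c : Plane) : ℝ := (b 0 - a 0) * (c 1 - a 1) - (b 1 - a 1) * (c 0 - a 0)

theorem cross_of_mem {u v w : Plane} (h : w ∈ openSegment ℝ u v) : cross u v w = 0 := by
  obtain ⟨a, b, _, _, hab, rfl⟩ := h
  have ha : a = 1 - b := by linarith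
  subst ha
  simp [cross]
  ring

theorem mem_openSegment_iff' {u v w : Plane} : w ∈ openSegment ℝ u v ∧ u ≠ v ↔
    cross u v w = 0 ∧ (w 0 - u 0) * (w 0 - v 0) + (w 1 - u 1) * (w 1 - v 1) < 0 := by
  constructor
  · rintro ⟨h, huv⟩
    refine ⟨cross_of_mem h, ?_⟩
    obtain ⟨a, b, ha, hb, hab, rfl⟩ := h
    have ha' : a = 1 - b := by linarith
    have hne : 0 < (v 0 - u 0) ^ 2 + (v 1 - u 1) ^ 2 := by
      by_contra hle
      apply huv
      have h0 : (v 0 - u 0) ^ 2 = 0 := by nlinarith [sq_nonneg (v 0 - u 0), sq_nonneg (v 1 - u 1)]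
      have h1 : (v 1 - u 1) ^ 2 = 0 := by nlinarith [sq_nonneg (v 0 - u 0), sq_nonneg (v 1 - u 1)]
      have h0' : v 0 - u 0 = 0 := by simpa using h0
      have h1' : v 1 - u 1 = 0 := by simpa using h1
      ext i
      fin_cases i
      · simp; linarith
      · simp; linarith
    have hb0 := hb
    have ha0 := ha
    subst ha'
    have e : ((1 - b) • u + b • v : Plane) 0 = (1 - b) * u 0 + b * v 0 := by simp
    have e' : ((1 - b) • u + b • v : Plane) 1 = (1 - b) * u 1 + b * v 1 := by simp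
    rw [e, e']
    have key : ((1 - b) * u 0 + b * v 0 - u 0) * ((1 - b) * u 0 + b * v 0 - v 0) +
        ((1 - b) * u 1 + b * v 1 - u 1) * ((1 - b) * u 1 + b * v 1 - v 1) =
        -(b * (1 - b) * ((v 0 - u 0) ^ 2 + (v 1 - u 1) ^ 2)) := by ring
    rw [key]
    have := mul_pos (mul_pos hb0 ha0) hne
    linarith
  · rintro ⟨h1, h2⟩
    have huv : u ≠ v := by
      rintro rfl
      nlinarith [sq_nonneg (w 0 - u 0), sq_nonneg (w 1 - u 1)]
    refine ⟨?_, huv⟩
    unfold cross at h1
    set X := v 0 - u 0 with hX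
    set Y := v 1 - u 1 with hY
    set x := w 0 - u 0 with hx
    set y := w 1 - u 1 with hy
    have hN : 0 < X ^ 2 + Y ^ 2 := by
      by_contra hle
      have h0 : X ^ 2 = 0 := by nlinarith [sq_nonneg X, sq_nonneg Y]
      have h1' : Y ^ 2 = 0 := by nlinarith [sq_nonneg X, sq_nonneg Y]
      have h0' : X = 0 := by simpa using h0
      have h1'' : Y = 0 := by simpa using h1'
      apply huv
      ext i
      fin_cases i
      · simp; linarith
      · simp; linarith
    have e0 : w 0 - v 0 = x - X := by rw [hx, hX]; ring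
    have e1 : w 1 - v 1 = y - Y := by rw [hy, hY]; ring
    rw [e0, e1] at h2
    set N := X ^ 2 + Y ^ 2 with hNdef
    set D := x * X + y * Y with hD
    have a1 : x * N = D * X := by rw [hNdef, hD]; linear_combination (-Y) * h1
    have a2 : y * N = D * Y := by rw [hNdef, hD]; linear_combination X * h1
    have a3 : (x * (x - X) + y * (y - Y)) * N = D * (D - N) := by
      have : (x * (x - X) + y * (y - Y)) * N = (x * N) * (x - X) + (y * N) * (y - Y) := by ring
      rw [this, a1, a2, hNdef, hD]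
      ring
    have a4 : D * (D - N) < 0 := by
      rw [← a3]
      exact mul_neg_of_neg_of_pos h2 hN
    have a5 : 0 < D := by
      by_contra hle
      push Not at hle
      nlinarith
    have a6 : D < N := by
      by_contra hle
      push Not at hle
      nlinarith
    refine ⟨1 - D / N, D / N, ?_, div_pos a5 hN, by ring, ?_⟩
    · have := (div_lt_one hN).2 a6
      linarith
    · have hN' := hN.ne'
      ext i
      fin_cases i
      · have : (((1 - D / N) • u + (D / N) • v : Plane)) 0 = u 0 + (D / N) * X := by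
          simp [hX]; ring
        change (((1 - D / N) • u + (D / N) • v : Plane)) 0 = w 0
        rw [this]
        have : (D / N) * X = x := by
          rw [div_mul_eq_mul_div, ← a1]; field_simp
        rw [this, hx]; ring
      · have : (((1 - D / N) • u + (D / N) • v : Plane)) 1 = u 1 + (D / N) * Y := by
          simp [hY]; ring
        change (((1 - D / N) • u + (D / N) • v : Plane)) 1 = w 1
        rw [this]
        have : (D / N) * Y = y := by
          rw [div_mul_eq_mul_div, ← a2]; field_simp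
        rw [this, hy]; ring

/-- A finite set does not meet a punctured neighbourhood. -/
theorem eventually_notMem {s : Set ℝ} (hs : s.Finite) : ∀ᶠ δ in 𝓝[>] (0 : ℝ), δ ∉ s := by
  have h1 : (s \ {0}).Finite := hs.subset Set.sdiff_subset
  have h2 : (s \ {0})ᶜ ∈ 𝓝 (0 : ℝ) := h1.isClosed.isOpen_compl.mem_nhds (by simp)
  have h3 : ∀ᶠ δ in 𝓝[>] (0 : ℝ), δ ∈ (s \ {0})ᶜ := nhdsWithin_le_nhds h2
  filter_upwards [h3, self_mem_nhdsWithin] with δ h4 h5 h6
  exact h4 ⟨h6, ne_of_gt h5⟩

/-- A quadratic polynomial with nonzero leading coefficient is nonzero near `0`. -/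
theorem eventually_quad {A B C : ℝ} (hC : C ≠ 0) :
    ∀ᶠ δ in 𝓝[>] (0 : ℝ), A + B * δ + C * δ ^ 2 ≠ 0 := by
  have hfin : {δ : ℝ | A + B * δ + C * δ ^ 2 = 0}.Finite := by
    set P : Polynomial ℝ := Polynomial.C A + Polynomial.C B * Polynomial.X +
      Polynomial.C C * Polynomial.X ^ 2 with hP
    have hP0 : P ≠ 0 := by
      intro h
      have : P.coeff 2 = 0 := by rw [h]; simp
      rw [hP] at this
      simp at this
      exact hC this
    refine (P.roots.toFinset.finite_toSet).subset fun δ hδ => ?_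
    simp only [Finset.mem_coe, Multiset.mem_toFinset]
    rw [Polynomial.mem_roots hP0, Polynomial.IsRoot, hP]
    simpa using hδ
  filter_upwards [eventually_notMem hfin] with δ hδ
  exact hδ

/-- Perturbation: strict conditions on the lengths can be met by a non-degenerate drawing. -/
theorem exists_nondegenerate {V : Type*} [Finite V] (S L : SimpleGraph V) (p : V → Plane)
    (hS : ∀ u v, S.Adj u v → dist (p u) (p v) < 1) (hL : ∀ u v, L.Adj u v → 1 < dist (p u) (p v)) :
    Realizable S L := by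
  classical
  cases nonempty_fintype V
  let t : V → ℝ := fun v => ((Fintype.equivFin V v : ℕ) : ℝ)
  have ht : Function.Injective t := by
    intro u v huv
    have : ((Fintype.equivFin V u : ℕ) : ℝ) = ((Fintype.equivFin V v : ℕ) : ℝ) := huv
    have : (Fintype.equivFin V u : ℕ) = (Fintype.equivFin V v : ℕ) := by exact_mod_cast this
    exact (Fintype.equivFin V).injective (Fin.ext this)
  let q : V → Plane := fun v => !₂[t v, t v ^ 2]
  have hq0 : ∀ v, q v 0 = t v := fun v => by simp [q]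
  have hq1 : ∀ v, q v 1 = t v ^ 2 := fun v => by simp [q]
  let P : ℝ → V → Plane := fun δ v => p v + δ • q v
  have hc : ∀ u v, ContinuousAt (fun δ : ℝ => dist (P δ u) (P δ v)) 0 := by
    intro u v
    have : Continuous (fun δ : ℝ => dist (P δ u) (P δ v)) := by
      simp only [P]
      fun_prop
    exact this.continuousAt
  have h00 : ∀ u v, dist (P 0 u) (P 0 v) = dist (p u) (p v) := by
    intro u v; simp [P]
  have e1 : ∀ᶠ δ in 𝓝[>] (0 : ℝ), ∀ u v, S.Adj u v → dist (P δ u) (P δ v) < 1 := by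
    rw [Filter.eventually_all]
    intro u
    rw [Filter.eventually_all]
    intro v
    by_cases h : S.Adj u v
    · have := (hc u v).tendsto
      rw [h00] at this
      filter_upwards [(this.mono_left nhdsWithin_le_nhds).eventually (gt_mem_nhds (hS u v h))]
        with δ hδ _ using hδ
    · exact Filter.Eventually.of_forall fun δ hh => absurd hh h
  have e2 : ∀ᶠ δ in 𝓝[>] (0 : ℝ), ∀ u v, L.Adj u v → 1 < dist (P δ u) (P δ v) := by
    rw [Filter.eventually_all]
    intro u
    rw [Filter.eventually_all]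
    intro v
    by_cases h : L.Adj u v
    · have := (hc u v).tendsto
      rw [h00] at this
      filter_upwards [(this.mono_left nhdsWithin_le_nhds).eventually (lt_mem_nhds (hL u v h))]
        with δ hδ _ using hδ
    · exact Filter.Eventually.of_forall fun δ hh => absurd hh h
  have e3 : ∀ᶠ δ in 𝓝[>] (0 : ℝ), ∀ u v, u ≠ v → P δ u ≠ P δ v := by
    rw [Filter.eventually_all]
    intro u
    rw [Filter.eventually_all]
    intro v
    by_cases h : u = v
    · exact Filter.Eventually.of_forall fun δ hh => absurd h hh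
    · have hfin : {δ : ℝ | (p u 0 - p v 0) + δ * (t u - t v) = 0}.Finite := by
        refine (Set.finite_singleton (-(p u 0 - p v 0) / (t u - t v))).subset fun δ hδ => ?_
        have h1 : t u - t v ≠ 0 := sub_ne_zero.2 fun h' => h (ht h')
        have hδ : (p u 0 - p v 0) + δ * (t u - t v) = 0 := hδ
        rw [Set.mem_singleton_iff, eq_div_iff h1]
        linarith
      filter_upwards [eventually_notMem hfin] with δ hδ _ heq
      apply hδ
      have h2 : P δ u 0 = P δ v 0 := by rw [heq]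
      simp only [P, PiLp.add_apply, PiLp.smul_apply, hq0, smul_eq_mul] at h2
      change (p u 0 - p v 0) + δ * (t u - t v) = 0
      linarith
  have e4 : ∀ᶠ δ in 𝓝[>] (0 : ℝ), ∀ u v w, u ≠ v → u ≠ w → v ≠ w →
      cross (P δ u) (P δ v) (P δ w) ≠ 0 := by
    rw [Filter.eventually_all]
    intro u
    rw [Filter.eventually_all]
    intro v
    rw [Filter.eventually_all]
    intro w
    by_cases h1 : u = v
    · exact Filter.Eventually.of_forall fun δ hh => absurd h1 hh
    by_cases h2 : u = w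
    · exact Filter.Eventually.of_forall fun δ _ hh => absurd h2 hh
    by_cases h3 : v = w
    · exact Filter.Eventually.of_forall fun δ _ _ hh => absurd h3 hh
    have hC : (t v - t u) * (t w ^ 2 - t u ^ 2) - (t v ^ 2 - t u ^ 2) * (t w - t u) ≠ 0 := by
      have : (t v - t u) * (t w ^ 2 - t u ^ 2) - (t v ^ 2 - t u ^ 2) * (t w - t u) =
          (t v - t u) * (t w - t u) * (t w - t v) := by ring
      rw [this]
      refine mul_ne_zero (mul_ne_zero ?_ ?_) ?_
      · exact sub_ne_zero.2 fun h' => h1 (ht h').symm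
      · exact sub_ne_zero.2 fun h' => h2 (ht h').symm
      · exact sub_ne_zero.2 fun h' => h3 (ht h').symm
    filter_upwards [eventually_quad (A := (p v 0 - p u 0) * (p w 1 - p u 1) -
      (p v 1 - p u 1) * (p w 0 - p u 0)) (B := (p v 0 - p u 0) * (t w ^ 2 - t u ^ 2) +
      (t v - t u) * (p w 1 - p u 1) - (p v 1 - p u 1) * (t w - t u) -
      (t v ^ 2 - t u ^ 2) * (p w 0 - p u 0)) hC] with δ hδ _ _ _ h0
    apply hδ
    rw [← h0]
    simp only [cross, P, PiLp.add_apply, PiLp.smul_apply, hq0, hq1, smul_eq_mul]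
    ring
  obtain ⟨δ, ⟨⟨h1, h2⟩, h3⟩, h4⟩ := (((e1.and e2).and e3).and e4).exists
  refine ⟨P δ, ⟨fun u v huv => ?_, fun u v huv w hw => ?_⟩, fun u v huv => (h1 u v huv).le, h2⟩
  · by_contra hne
    exact h3 u v hne huv
  · have hne : u ≠ v := huv.ne
    by_cases hwu : w = u
    · subst hwu
      have := (mem_openSegment_iff'.1 ⟨hw, h3 _ _ hne⟩).2
      simp at this
    by_cases hwv : w = v
    · subst hwv
      have := (mem_openSegment_iff'.1 ⟨hw, h3 _ _ hne⟩).2
      simp at this
    exact h4 u v w hne (Ne.symm hwu) (Ne.symm hwv) (cross_of_mem hw)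

open Pool.Agent.NPC.ER.Pat

/-- A matrix which is realized by points and lines is realized by points and pairs of unit
circles. -/
theorem circles_of_SRN {M : List (List Bool)} (h : SRN 2 M) : ∃ p a b : ℕ → Plane,
    ∀ i (hi : i < M.length) j (hj : j < M[i].length),
      (M[i][j] = true → dist (p i) (a j) < 1 ∧ 1 < dist (p i) (b j)) ∧
      (M[i][j] = false → 1 < dist (p i) (a j) ∧ dist (p i) (b j) < 1) := by
  obtain ⟨y, n, c, hn, hy⟩ := unit_of_SRN (k := 1) h one_pos
  obtain ⟨m, hm⟩ := exists_rowBound M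
  -- the squares of the distances
  have ha : ∀ (ε : ℝ) i j, dist (ε • y i) ((1 - ε * c j) • n j) ^ 2 =
      1 - 2 * ε * (c j + ⟪y i, n j⟫) + ε ^ 2 * (‖y i‖ ^ 2 + 2 * c j * ⟪y i, n j⟫ + c j ^ 2) := by
    intro ε i j
    rw [dist_eq_norm, @norm_sub_sq_real]
    rw [norm_smul, norm_smul, (hn j).1, inner_smul_left, inner_smul_right, mul_one]
    simp only [Real.norm_eq_abs, mul_pow, sq_abs, conj_trivial]
    ring
  have hb : ∀ (ε : ℝ) i j, dist (ε • y i) ((-(1 + ε * c j)) • n j) ^ 2 =
      1 + 2 * ε * (c j + ⟪y i, n j⟫) + ε ^ 2 * (‖y i‖ ^ 2 + 2 * c j * ⟪y i, n j⟫ + c j ^ 2) := by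
    intro ε i j
    rw [dist_eq_norm, @norm_sub_sq_real]
    rw [norm_smul, norm_smul, (hn j).1, inner_smul_left, inner_smul_right, mul_one]
    simp only [Real.norm_eq_abs, mul_pow, sq_abs, conj_trivial]
    ring
  have hev : ∀ᶠ ε in 𝓝[>] (0 : ℝ), ∀ i ∈ Finset.range M.length, ∀ j ∈ Finset.range m,
      ε * |‖y i‖ ^ 2 + 2 * c j * ⟪y i, n j⟫ + c j ^ 2| <
        2 * |c j + ⟪y i, n j⟫| ∨ c j + ⟪y i, n j⟫ = 0 := by
    rw [Filter.eventually_all_finset]
    intro i _
    rw [Filter.eventually_all_finset]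
    intro j _
    by_cases h0 : c j + ⟪y i, n j⟫ = 0
    · exact Filter.Eventually.of_forall fun _ => Or.inr h0
    · have h1 : 0 < 2 * |c j + ⟪y i, n j⟫| := by positivity
      have h2 : Tendsto (fun ε : ℝ => ε * |‖y i‖ ^ 2 + 2 * c j * ⟪y i, n j⟫ + c j ^ 2|)
          (𝓝 0) (𝓝 (0 * |‖y i‖ ^ 2 + 2 * c j * ⟪y i, n j⟫ + c j ^ 2|)) :=
        tendsto_id.mul_const _
      rw [zero_mul] at h2
      filter_upwards [(h2.mono_left nhdsWithin_le_nhds).eventually (gt_mem_nhds h1)] with ε hε
      exact Or.inl hε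
  obtain ⟨ε, hε, hε0⟩ := (hev.and self_mem_nhdsWithin).exists
  have hε0' : 0 < ε := hε0
  refine ⟨fun i => ε • y i, fun j => (1 - ε * c j) • n j, fun j => (-(1 + ε * c j)) • n j,
    fun i hi j hj => ?_⟩
  have hjm : j < m := lt_of_lt_of_le hj (hm i hi)
  have h1 := hy i hi j hj
  have h2 := hε i (Finset.mem_range.2 hi) j (Finset.mem_range.2 hjm)
  set s := c j + ⟪y i, n j⟫ with hs
  set K := ‖y i‖ ^ 2 + 2 * c j * ⟪y i, n j⟫ + c j ^ 2 with hK
  have hs0 : s ≠ 0 := by
    intro h0
    rw [h0, mul_zero] at h1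
    exact lt_irrefl _ h1
  have h3 : ε * |K| < 2 * |s| := h2.resolve_right hs0
  have h4 : ε ^ 2 * |K| < 2 * ε * |s| := by nlinarith
  have h5 : |ε ^ 2 * K| < 2 * ε * |s| := by
    rw [abs_mul, abs_of_pos (by positivity : (0 : ℝ) < ε ^ 2)]
    exact h4
  obtain ⟨h6, h7⟩ := abs_lt.1 h5
  have ha' := ha ε i j
  have hb' := hb ε i j
  rw [← hs, ← hK] at ha' hb'
  have lt1 : ∀ u v : Plane, dist u v ^ 2 < 1 → dist u v < 1 := by
    intro u v h
    exact (sq_lt_one_iff₀ dist_nonneg).1 h
  have gt1 : ∀ u v : Plane, 1 < dist u v ^ 2 → 1 < dist u v := by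
    intro u v h
    exact (one_lt_sq_iff₀ dist_nonneg).1 h
  constructor
  · intro hM
    rw [hM, sgn_true, one_mul] at h1
    rw [abs_of_pos h1] at h6 h7
    refine ⟨lt1 _ _ ?_, gt1 _ _ ?_⟩
    · rw [ha']; linarith
    · rw [hb']; linarith
  · intro hM
    rw [hM, sgn_false] at h1
    have h1' : s < 0 := by linarith
    rw [abs_of_neg h1'] at h6 h7
    refine ⟨gt1 _ _ ?_, lt1 _ _ ?_⟩
    · rw [ha']; nlinarith
    · rw [hb']; nlinarith

/-- A matrix which is realized by points and pairs of unit circles has sign rank at most three. -/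
theorem SR_of_circles {M : List (List Bool)} {p a b : ℕ → Plane}
    (h : ∀ i (hi : i < M.length) j (hj : j < M[i].length),
      (M[i][j] = true → dist (p i) (a j) ≤ 1 ∧ 1 < dist (p i) (b j)) ∧
      (M[i][j] = false → 1 < dist (p i) (a j) ∧ dist (p i) (b j) ≤ 1)) : SR 3 M := by
  refine ⟨fun i => ![1, p i 0, p i 1], fun j => ![(b j 0 ^ 2 + b j 1 ^ 2) - (a j 0 ^ 2 + a j 1 ^ 2),
    2 * (a j 0 - b j 0), 2 * (a j 1 - b j 1)], fun i hi j hj => ?_⟩
  have hd : ∀ u v : Plane, dist u v ^ 2 = (u 0 - v 0) ^ 2 + (u 1 - v 1) ^ 2 := by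
    intro u v
    rw [EuclideanSpace.dist_eq, Real.sq_sqrt (by positivity), Fin.sum_univ_two]
    simp only [Real.dist_eq, sq_abs]
  have e : (![1, p i 0, p i 1] : Fin 3 → ℝ) ⬝ᵥ ![(b j 0 ^ 2 + b j 1 ^ 2) -
      (a j 0 ^ 2 + a j 1 ^ 2), 2 * (a j 0 - b j 0), 2 * (a j 1 - b j 1)] =
      dist (p i) (b j) ^ 2 - dist (p i) (a j) ^ 2 := by
    rw [hd, hd, dotProduct, Fin.sum_univ_three]
    simp
    ring
  rw [e]
  have h1 := dist_nonneg (x := p i) (y := a j)
  have h2 := dist_nonneg (x := p i) (y := b j)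
  cases hM : M[i][j]
  · obtain ⟨h3, h4⟩ := (h i hi j hj).2 hM
    rw [sgn_false]
    nlinarith
  · obtain ⟨h3, h4⟩ := (h i hi j hj).1 hM
    rw [sgn_true]
    nlinarith

end Pool.Agent.NPC.L5h57.LS
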