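import Pool.Agent.L5helper57.LS.Mem
import Pool.Agent.H612.PatOf

/-!
# Long and short edges on complete bipartite graphs: completeness for `∃ℝ`
-/

namespace Pool.Agent.NPC.L5h57.LS

open Pool.Agent.NPC Pool.Agent.NPC.ER Pool.Agent.NPC.ER.Pat Pool.Agent.NPC.H670R2

theorem isPatOf : IsPatOf Sgn.patOf where
  poly := Sgn.poly_patOf Poly.id
  wf := Sgn.patOf_wf
  sound := fun _ h => Sgn.patOf_sound h
  complete := fun _ h => Sgn.patOf_complete h

theorem complete : ERComplete (lang BipLongShort) := ⟨member, hard_of isPatOf⟩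

/-- The reduction from systems of constraints. -/
def red (S : List Con) : Inst := inst (matOf Sgn.patOf 0 S)

theorem poly_red : Poly red := poly_inst.comp (isPatOf.poly_matOf 0)

theorem sat_iff (S : List Con) : Sat S ↔ Realizable (shortG (red S)) (longG (red S)) := by
  obtain ⟨m, hm⟩ := rect_matOf Sgn.patOf 0 S
  exact ⟨fun hS => realizable_of_SRN hm (isPatOf.srn (k := 0) hS),
    fun hS => isPatOf.sat (k := 0) (SR_of_realizable hm hS)⟩

/-- Transfer of hardness for a promise problem. -/
theorem promise_of_sys {α : Type} [TEnc α] {P : α → Prop} {Q : α → Prop} {f : List Con → α}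
    (hf : Poly f) (hQ : ∀ S, Q (f S)) (h : ∀ S, Sat S ↔ P (f S)) :
    ∀ L : Set (List Bool), InER L → ∃ g : List Bool → α,
      PolyTime (fun x => bits (g x)) ∧ (∀ x, Q (g x)) ∧ ∀ x, x ∈ L ↔ P (g x) := by
  rintro L' ⟨g, hg, hL⟩
  have h1 : PC (id : List Bool → List Bool) (bits : Fm → List Bool) g :=
    H642R2.TMSim.polyTime_toPC hg
  have h2 : Poly (fun φ : Fm => f (sysOf φ)) := Poly.comp hf (poly_sysOf Poly.id)
  have h3 : PC (id : List Bool → List Bool) (bits : α → List Bool) (fun x => f (sysOf (g x))) :=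
    PC.comp (g := fun φ : Fm => f (sysOf φ)) (eb := (bits : Fm → List Bool)) h2 h1
  have h4 : PC (id : List Bool → List Bool) (id : List Bool → List Bool)
    (fun x => bits (f (sysOf (g x)))) := h3
  exact ⟨fun x => f (sysOf (g x)), PC.toPolyTime h4, fun x => hQ _, fun x => by
    rw [hL, ← sat_sysOf, h]⟩

/-- Hardness of the restricted problem: all instances produced are complete bipartite graphs. -/
theorem hard_promise : ∀ L : Set (List Bool), InER L → ∃ f : List Bool → Inst,
    PolyTime (fun x => bits (f x)) ∧ (∀ x, Valid (f x)) ∧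
      ∀ x, x ∈ L ↔ Realizable (shortG (f x)) (longG (f x)) :=
  promise_of_sys (P := fun I => Realizable (shortG I) (longG I)) poly_red
    (fun S => valid_inst _) sat_iff

end Pool.Agent.NPC.L5h57.LS
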