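import Pool.Agent.L5helper57.LS.Red
import Pool.Agent.ER.Dec

/-!
# Long and short edges on complete bipartite graphs: membership in `∃ℝ`
-/

namespace Pool.Agent.NPC.L5h57.LS

open Pool.Agent.NPC Pool.Agent.NPC.ER Pool.Agent.NPC.ER.Pat Pool.Agent.NPC.H670R2

/-! ### Valid instances -/

/-- All edges. -/
def alle (I : Inst) : List (ℕ × ℕ) := I.2.1 ++ I.2.2

/-- Adjacency test. -/
def adjT (E : List (ℕ × ℕ)) (u v : ℕ) : Bool := decide ((u, v) ∈ E) || decide ((v, u) ∈ E)

/-- The first vertex. -/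
def fst0 (I : Inst) : ℕ := I.1.head?.getD 0

/-- The test for complete bipartite graphs. -/
def cbT (I : Inst) : Bool := I.1.all fun u => I.1.all fun v =>
  decide (adjT (alle I) u v = xor (adjT (alle I) (fst0 I) u) (adjT (alle I) (fst0 I) v))

/-- The test for disjointness. -/
def djT (I : Inst) : Bool := I.2.1.all fun e => !(adjT I.2.2 e.1 e.2)

/-- The test for valid instances. -/
def validT (I : Inst) : Bool :=
  ((decide (short I).WF && decide (long I).WF) && djT I) && cbT I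

theorem adjT_iff {E : List (ℕ × ℕ)} {u v : ℕ} : adjT E u v = true ↔ (u, v) ∈ E ∨ (v, u) ∈ E := by
  simp [adjT]

theorem sup_adj_iff {I : Inst} (h1 : (short I).WF) (h2 : (long I).WF)
    {u v : {v : ℕ // v ∈ I.1}} : (shortG I ⊔ longG I).Adj u v ↔ adjT (alle I) u.1 v.1 = true := by
  rw [SimpleGraph.sup_adj, adjT_iff]
  have e1 : (shortG I).Adj u v ↔ _ := graph_adj h1
  have e2 : (longG I).Adj u v ↔ _ := graph_adj h2
  rw [e1, e2]
  simp only [alle, List.mem_append, short, long]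
  tauto

theorem validT_iff (I : Inst) : validT I = true ↔ Valid I := by
  unfold validT Valid
  simp only [Bool.and_eq_true, decide_eq_true_eq, and_assoc]
  refine and_congr_right fun h1 => and_congr_right fun h2 => and_congr ?_ ?_
  · rw [djT, List.all_eq_true, disjoint_iff]
    have e1 : ∀ u v, (shortG I).Adj u v ↔ _ := fun u v => graph_adj h1
    have e2 : ∀ u v, (longG I).Adj u v ↔ _ := fun u v => graph_adj h2
    constructor
    · intro h
      ext u v
      simp only [SimpleGraph.inf_adj, SimpleGraph.bot_adj, iff_false, not_and]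
      rw [e1, e2]
      intro h3 h4
      rcases h3 with h3 | h3
      · have := h _ h3
        simp only [Bool.not_eq_true', ← Bool.not_eq_true, adjT_iff] at this
        exact this h4
      · have := h _ h3
        simp only [Bool.not_eq_true', ← Bool.not_eq_true, adjT_iff] at this
        exact this h4.symm
    · rintro h ⟨u, v⟩ he
      simp only [Bool.not_eq_true', ← Bool.not_eq_true, adjT_iff]
      intro h3
      obtain ⟨hu, hv, -⟩ := h1 _ he
      have h4 : (shortG I ⊓ longG I).Adj ⟨u, hu⟩ ⟨v, hv⟩ := by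
        rw [SimpleGraph.inf_adj, e1, e2]
        exact ⟨Or.inl he, h3⟩
      rw [h] at h4
      exact h4
  · have hfin : Finite {v : ℕ // v ∈ I.1} := List.finite_toSet I.1
    rw [isCompleteBipartite_iff]
    simp only [cbT, List.all_eq_true, decide_eq_true_eq]
    constructor
    · intro h
      refine ⟨fun v => adjT (alle I) (fst0 I) v.1, fun u v => ?_⟩
      rw [sup_adj_iff h1 h2, h _ u.2 _ v.2]
      simp
    · rintro ⟨c, hc⟩ u hu v hv
      have hne : I.1 ≠ [] := List.ne_nil_of_mem hu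
      obtain ⟨a, l, hal⟩ := List.exists_cons_of_ne_nil hne
      have h0 : fst0 I ∈ I.1 := by
        unfold fst0
        rw [hal]
        simp
      have k1 := (sup_adj_iff h1 h2 (u := ⟨u, hu⟩) (v := ⟨v, hv⟩)).symm.trans (hc _ _)
      have k2 := (sup_adj_iff h1 h2 (u := ⟨_, h0⟩) (v := ⟨u, hu⟩)).symm.trans (hc _ _)
      have k3 := (sup_adj_iff h1 h2 (u := ⟨_, h0⟩) (v := ⟨v, hv⟩)).symm.trans (hc _ _)
      simp only at k1 k2 k3
      have key : ∀ a1 a2 a3 b1 b2 b3 : Bool, (a1 = true ↔ b1 ≠ b2) → (a2 = true ↔ b3 ≠ b1) →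
          (a3 = true ↔ b3 ≠ b2) → a1 = xor a2 a3 := by decide
      exact key _ _ _ _ _ _ k1 k2 k3

theorem poly_adjT {α : Type} [TEnc α] {E : α → List (ℕ × ℕ)} {u v : α → ℕ} (hE : Poly E)
    (hu : Poly u) (hv : Poly v) : Poly (fun a => adjT (E a) (u a) (v a)) :=
  (Poly.or (Poly.decide_mem (Poly.pair hu hv) hE) (Poly.decide_mem (Poly.pair hv hu) hE)).congr
    fun a => by unfold adjT; congr

theorem poly_validT : Poly validT := by
  have hV : Poly (fun I : Inst => I.1) := Poly.fst Poly.id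
  have hS : Poly (fun I : Inst => I.2.1) := Poly.fst (Poly.snd Poly.id)
  have hL : Poly (fun I : Inst => I.2.2) := Poly.snd (Poly.snd Poly.id)
  have hA : Poly alle := Poly.append hS hL
  have h1 : Poly (fun I : Inst => decide (short I).WF) := poly_wf (g := short) (Poly.pair hV hS)
  have h2 : Poly (fun I : Inst => decide (long I).WF) := poly_wf (g := long) (Poly.pair hV hL)
  have h3 : Poly djT := Poly.all (p := fun (I : Inst) (e : ℕ × ℕ) => !(adjT I.2.2 e.1 e.2)) hS
    (Poly.not (poly_adjT (hL.comp (Poly.fst Poly.id)) (Poly.fst (Poly.snd Poly.id))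
      (Poly.snd (Poly.snd Poly.id))))
  have h0 : Poly fst0 := Poly.head?_getD hV 0
  have h4 : Poly cbT := by
    unfold cbT
    have a1 : Poly (fun p : (Inst × ℕ) × ℕ => alle p.1.1) := hA.comp (Poly.fst (Poly.fst Poly.id))
    have a2 : Poly (fun p : (Inst × ℕ) × ℕ => fst0 p.1.1) := h0.comp (Poly.fst (Poly.fst Poly.id))
    have a3 : Poly (fun p : (Inst × ℕ) × ℕ => p.1.2) := Poly.snd (Poly.fst Poly.id)
    have a4 : Poly (fun p : (Inst × ℕ) × ℕ => p.2) := Poly.snd Poly.id
    refine Poly.all (p := fun (I : Inst) u => I.1.all fun v => decide (adjT (alle I) u v =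
      xor (adjT (alle I) (fst0 I) u) (adjT (alle I) (fst0 I) v))) hV ?_
    refine Poly.all (p := fun (p : Inst × ℕ) v => decide (adjT (alle p.1) p.2 v =
      xor (adjT (alle p.1) (fst0 p.1) p.2) (adjT (alle p.1) (fst0 p.1) v)))
      (hV.comp (Poly.fst Poly.id)) ?_
    exact Poly.decide_eq (poly_adjT a1 a3 a4) (Poly.xor (poly_adjT a1 a2 a3) (poly_adjT a1 a2 a4))
  exact Poly.and (Poly.and (Poly.and h1 h2) h3) h4

/-! ### The formula -/

/-- A difference of coordinates. -/
def dT (k u v : ℕ) : Tm := Tm.add (Tm.var (v * 2 + k)) (Tm.neg (Tm.var (u * 2 + k)))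

/-- `cross` as a term. -/
def crossT (u v w : ℕ) : Tm :=
  Tm.add (Tm.mul (dT 0 u v) (dT 1 u w)) (Tm.neg (Tm.mul (dT 1 u v) (dT 0 u w)))

/-- The inner product of `w - u` and `w - v`. -/
def dotT (u v w : ℕ) : Tm :=
  Tm.add (Tm.mul (dT 0 u w) (dT 0 v w)) (Tm.mul (dT 1 u w) (dT 1 v w))

/-- `w` is not in the open segment `u v`. -/
def offF (u v w : ℕ) : Fm := Fm.not (Fm.and (Fm.eq (crossT u v w) Tm.zero)
  (Fm.lt (dotT u v w) Tm.zero))

theorem ofX_apply0 (x : ℕ → ℝ) (u : ℕ) : (ofX 2 x u) 0 = x (u * 2 + 0) := rfl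
theorem ofX_apply1 (x : ℕ → ℝ) (u : ℕ) : (ofX 2 x u) 1 = x (u * 2 + 1) := rfl

theorem offF_holds (x : ℕ → ℝ) {u v w : ℕ} (h : ofX 2 x u ≠ ofX 2 x v) :
    (offF u v w).Holds x ↔ ofX 2 x w ∉ openSegment ℝ (ofX 2 x u) (ofX 2 x v) := by
  have h1 : (ofX 2 x w ∈ openSegment ℝ (ofX 2 x u) (ofX 2 x v)) ↔
      cross (ofX 2 x u) (ofX 2 x v) (ofX 2 x w) = 0 ∧ ((ofX 2 x w) 0 - (ofX 2 x u) 0) *
      ((ofX 2 x w) 0 - (ofX 2 x v) 0) + ((ofX 2 x w) 1 - (ofX 2 x u) 1) *
      ((ofX 2 x w) 1 - (ofX 2 x v) 1) < 0 := by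
    rw [← mem_openSegment_iff']
    simp [h]
  rw [h1]
  unfold offF
  simp only [Fm.Holds, crossT, dotT, dT, Tm.eval, cross, ofX_apply0, ofX_apply1]
  refine not_congr (and_congr ?_ ?_)
  · constructor <;> intro h <;> linarith
  · constructor <;> intro h <;> linarith

/-- The formula of an instance. -/
def longF (I : Inst) : Fm :=
  if validT I = true then
    Fm.and (injF 2 (short I)) (Fm.and (conj (I.2.1.map fun e => Fm.le (sqT 2 2 e.1 e.2) Tm.one))
      (Fm.and (conj (I.2.2.map fun e => Fm.lt Tm.one (sqT 2 2 e.1 e.2)))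
        (conj ((alle I).flatMap fun e => I.1.map fun w => offF e.1 e.2 w))))
  else ff

theorem poly_dT {α : Type} [TEnc α] {u v : α → ℕ} (hu : Poly u) (hv : Poly v) (k : ℕ) :
    Poly (fun a => dT k (u a) (v a)) :=
  poly_tadd (poly_tvar (Poly.add (Poly.mul hv (Poly.const 2)) (Poly.const k)))
    (poly_tneg (poly_tvar (Poly.add (Poly.mul hu (Poly.const 2)) (Poly.const k))))

theorem poly_longF : Poly longF := by
  have hV : Poly (fun I : Inst => I.1) := Poly.fst Poly.id
  have hS : Poly (fun I : Inst => I.2.1) := Poly.fst (Poly.snd Poly.id)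
  have hL : Poly (fun I : Inst => I.2.2) := Poly.snd (Poly.snd Poly.id)
  have hA : Poly alle := Poly.append hS hL
  have e1 : Poly (fun p : Inst × (ℕ × ℕ) => p.2.1) := Poly.fst (Poly.snd Poly.id)
  have e2 : Poly (fun p : Inst × (ℕ × ℕ) => p.2.2) := Poly.snd (Poly.snd Poly.id)
  have h1 : Poly (fun I : Inst => injF 2 (short I)) := poly_injF (g := short) (Poly.pair hV hS) 2
  have h2 : Poly (fun I : Inst => conj (I.2.1.map fun e => Fm.le (sqT 2 2 e.1 e.2) Tm.one)) :=
    poly_conj (Poly.map (F := fun (_ : Inst) (e : ℕ × ℕ) => Fm.le (sqT 2 2 e.1 e.2) Tm.one) hS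
      (poly_le (poly_sqT e1 e2 2 2) (Poly.const _)))
  have h3 : Poly (fun I : Inst => conj (I.2.2.map fun e => Fm.lt Tm.one (sqT 2 2 e.1 e.2))) :=
    poly_conj (Poly.map (F := fun (_ : Inst) (e : ℕ × ℕ) => Fm.lt Tm.one (sqT 2 2 e.1 e.2)) hL
      (poly_lt (Poly.const _) (poly_sqT e1 e2 2 2)))
  have h4 : Poly (fun I : Inst => conj ((alle I).flatMap fun e => I.1.map fun w =>
      offF e.1 e.2 w)) := by
    refine poly_conj (Poly.flatMap (F := fun (I : Inst) (e : ℕ × ℕ) => I.1.map fun w =>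
      offF e.1 e.2 w) hA ?_)
    refine Poly.map (F := fun (p : Inst × (ℕ × ℕ)) w => offF p.2.1 p.2.2 w)
      (hV.comp (Poly.fst Poly.id)) ?_
    have a : Poly (fun p : (Inst × (ℕ × ℕ)) × ℕ => p.1.2.1) :=
      Poly.fst (Poly.snd (Poly.fst Poly.id))
    have b : Poly (fun p : (Inst × (ℕ × ℕ)) × ℕ => p.1.2.2) :=
      Poly.snd (Poly.snd (Poly.fst Poly.id))
    have c : Poly (fun p : (Inst × (ℕ × ℕ)) × ℕ => p.2) := Poly.snd Poly.id
    exact poly_not (poly_and (poly_eq (poly_tadd (poly_tmul (poly_dT a b 0) (poly_dT a c 1))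
      (poly_tneg (poly_tmul (poly_dT a b 1) (poly_dT a c 0)))) (Poly.const _))
      (poly_lt (poly_tadd (poly_tmul (poly_dT a c 0) (poly_dT b c 0))
        (poly_tmul (poly_dT a c 1) (poly_dT b c 1))) (Poly.const _)))
  refine (Poly.ite (p := fun I : Inst => validT I = true) (Poly.decide_bool poly_validT)
    (poly_and h1 (poly_and h2 (poly_and h3 h4))) (Poly.const ff)).congr fun I => ?_
  rfl

theorem longF_correct (I : Inst) : BipLongShort I ↔ ETR (longF I) := by
  unfold BipLongShort longF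
  by_cases hv : validT I = true
  · rw [if_pos hv]
    have hV := (validT_iff I).1 hv
    obtain ⟨w1, w2, -, -⟩ := hV
    have e1 : ∀ u v, (shortG I).Adj u v ↔ _ := fun u v => graph_adj w1
    have e2 : ∀ u v, (longG I).Adj u v ↔ _ := fun u v => graph_adj w2
    have key : ∀ x : ℕ → ℝ, (Fm.and (injF 2 (short I)) (Fm.and (conj (I.2.1.map fun e =>
        Fm.le (sqT 2 2 e.1 e.2) Tm.one)) (Fm.and (conj (I.2.2.map fun e =>
        Fm.lt Tm.one (sqT 2 2 e.1 e.2))) (conj ((alle I).flatMap fun e => I.1.map fun w =>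
        offF e.1 e.2 w))))).Holds x ↔
        NonDegenerate (shortG I ⊔ longG I) (fun v => ofX 2 x v.1) ∧
        (∀ u v, (shortG I).Adj u v → dist (ofX 2 x u.1) (ofX 2 x v.1) ≤ 1) ∧
        ∀ u v, (longG I).Adj u v → 1 < dist (ofX 2 x u.1) (ofX 2 x v.1) := by
      intro x
      simp only [Fm.Holds, holds_conj, List.mem_map, List.mem_flatMap]
      rw [injF_holds]
      have s1 : ∀ u v : ℕ, (Fm.le (sqT 2 2 u v) Tm.one).Holds x ↔
          dist (ofX 2 x u) (ofX 2 x v) ≤ 1 := by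
        intro u v
        simp only [Fm.Holds, sqT_ofX, Tm.eval]
        exact sq_le_one_iff₀ dist_nonneg
      have s2 : ∀ u v : ℕ, (Fm.lt Tm.one (sqT 2 2 u v)).Holds x ↔
          1 < dist (ofX 2 x u) (ofX 2 x v) := by
        intro u v
        simp only [Fm.Holds, sqT_ofX, Tm.eval]
        exact one_lt_sq_iff₀ dist_nonneg
      constructor
      · rintro ⟨hinj, hs, hl, ho⟩
        refine ⟨⟨hinj, fun u v huv w => ?_⟩, fun u v huv => ?_, fun u v huv => ?_⟩
        · have hne : ofX 2 x u.1 ≠ ofX 2 x v.1 := fun h => huv.ne (hinj h)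
          rw [sup_adj_iff w1 w2, adjT_iff] at huv
          rcases huv with h | h
          · exact (offF_holds x hne).1 (ho _ ⟨_, h, w.1, w.2, rfl⟩)
          · rw [openSegment_symm]
            exact (offF_holds x hne.symm).1 (ho _ ⟨_, h, w.1, w.2, rfl⟩)
        · rcases (e1 u v).1 huv with h | h
          · exact (s1 _ _).1 (hs _ ⟨_, h, rfl⟩)
          · rw [dist_comm]
            exact (s1 _ _).1 (hs _ ⟨_, h, rfl⟩)
        · rcases (e2 u v).1 huv with h | h
          · exact (s2 _ _).1 (hl _ ⟨_, h, rfl⟩)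
          · rw [dist_comm]
            exact (s2 _ _).1 (hl _ ⟨_, h, rfl⟩)
      · rintro ⟨⟨hinj, ho⟩, hs, hl⟩
        refine ⟨hinj, ?_, ?_, ?_⟩
        · rintro φ ⟨e, he, rfl⟩
          obtain ⟨hu, hv', -⟩ := w1 _ he
          exact (s1 _ _).2 (hs ⟨_, hu⟩ ⟨_, hv'⟩ ((e1 _ _).2 (Or.inl he)))
        · rintro φ ⟨e, he, rfl⟩
          obtain ⟨hu, hv', -⟩ := w2 _ he
          exact (s2 _ _).2 (hl ⟨_, hu⟩ ⟨_, hv'⟩ ((e2 _ _).2 (Or.inl he)))
        · rintro φ ⟨e, he, w, hw, rfl⟩
          have huv : e.1 ∈ I.1 ∧ e.2 ∈ I.1 ∧ e.1 ≠ e.2 := by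
            rcases List.mem_append.1 he with h | h
            · exact w1 _ h
            · exact w2 _ h
          obtain ⟨hu, hv', hne⟩ := huv
          have hadj : (shortG I ⊔ longG I).Adj ⟨_, hu⟩ ⟨_, hv'⟩ := by
            rw [sup_adj_iff w1 w2, adjT_iff]
            exact Or.inl he
          have hne' : ofX 2 x e.1 ≠ ofX 2 x e.2 := fun h => by
            have := @hinj ⟨_, hu⟩ ⟨_, hv'⟩ h
            exact hne (congrArg Subtype.val this)
          exact (offF_holds x hne').2 (ho _ _ hadj ⟨w, hw⟩)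
    constructor
    · rintro ⟨-, p, hp⟩
      obtain ⟨x, hx⟩ := exists_ofX (d := 2) (g := short I) p
      refine ⟨x, (key x).2 ?_⟩
      have : (fun v : {v : ℕ // v ∈ I.1} => ofX 2 x v.1) = p := funext hx
      rw [this]
      refine ⟨hp.1, fun u v huv => ?_, fun u v huv => ?_⟩
      · have h1 := hx u
        have h2 := hx v
        rw [h1, h2]
        exact hp.2.1 u v huv
      · have h1 := hx u
        have h2 := hx v
        rw [h1, h2]
        exact hp.2.2 u v huv
    · rintro ⟨x, hx⟩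
      exact ⟨(validT_iff I).1 hv, fun v => ofX 2 x v.1, (key x).1 hx⟩
  · rw [if_neg hv]
    exact ⟨fun h => absurd ((validT_iff I).2 h.1) hv, fun h => absurd h not_etr_ff⟩

/-- Membership in `∃ℝ`. -/
theorem member : InER (lang BipLongShort) := H670R2.InER.of_poly poly_longF longF_correct

end Pool.Agent.NPC.L5h57.LS
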