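import Pool.Agent.L5helper57.LS.Geo
import Pool.Agent.H625R2.BallFin

/-!
# Long and short edges on complete bipartite graphs: the reduction
-/

namespace Pool.Agent.NPC.L5h57.LS

open Pool.Agent.NPC Pool.Agent.NPC.ER Pool.Agent.NPC.ER.Pat Pool.Agent.NPC.H670R2

/-- Complete bipartite graphs are described by two-colourings. -/
theorem isCompleteBipartite_iff {V : Type*} [Finite V] {G : SimpleGraph V} :
    IsCompleteBipartite G ↔ ∃ c : V → Bool, ∀ u v, G.Adj u v ↔ c u ≠ c v := by
  classical
  constructor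
  · rintro ⟨m, n, ⟨φ⟩⟩
    refine ⟨fun v => (φ v).isLeft, fun u v => ?_⟩
    rw [← φ.map_adj_iff]
    simp only
    generalize φ u = x
    generalize φ v = y
    rcases x with x | x <;> rcases y with y | y <;> simp [completeBipartiteGraph]
  · rintro ⟨c, hc⟩
    cases nonempty_fintype V
    let e : V ≃ {v // c v = true} ⊕ {v // ¬ c v = true} := (Equiv.sumCompl (fun v => c v = true)).symm
    have he : ∀ v, ((e v).isLeft = true ↔ c v = true) := by
      intro v
      by_cases h : c v = true
      · have : e v = Sum.inl ⟨v, h⟩ := Equiv.sumCompl_symm_apply_of_pos (p := fun v => c v = true) (a := v) h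
        rw [this]; simp [h]
      · have : e v = Sum.inr ⟨v, h⟩ := Equiv.sumCompl_symm_apply_of_neg (p := fun v => c v = true) (a := v) h
        rw [this]; simp [h]
    let f := e.trans (Equiv.sumCongr (Fintype.equivFin {v // c v = true})
      (Fintype.equivFin {v // ¬ c v = true}))
    have hf : ∀ v, ((f v).isLeft = true ↔ c v = true) := by
      intro v
      rw [← he v]
      simp only [f, Equiv.trans_apply, Equiv.sumCongr_apply]
      cases e v <;> simp
    refine ⟨_, _, ⟨⟨f, ?_⟩⟩⟩
    intro u v
    rw [hc]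
    have h1 := hf u
    have h2 := hf v
    generalize f u = x at h1
    generalize f v = y at h2
    rcases x with x | x <;> rcases y with y | y <;>
      simp only [completeBipartiteGraph, Sum.isLeft_inl, Sum.isLeft_inr, Bool.false_eq_true,
        true_iff, false_iff, Bool.not_eq_true, Sum.isRight_inl, Sum.isRight_inr, and_self,
        and_true, and_false, or_self, or_false, or_true, false_and, true_and, false_or,
        ne_eq] at h1 h2 ⊢ <;> simp [h1, h2]

/-- The vertices of the instance: the points and the circles. -/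
def vts (M : List (List Bool)) : List ℕ :=
  (List.range M.length).map (fun i => 2 * i) ++
    (List.range (wid M + wid M)).map (fun k => 2 * k + 1)

/-- The edge between the point `i` and the circle `k` is short. -/
def isShort (M : List (List Bool)) (i k : ℕ) : Bool := ent M i (k / 2) == decide (k % 2 = 0)

/-- The short edges (`s = true`) and the long edges (`s = false`). -/
def edg (s : Bool) (M : List (List Bool)) : List (ℕ × ℕ) :=
  (List.range M.length).flatMap fun i => ((List.range (wid M + wid M)).filter fun k =>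
    decide (isShort M i k = s)).map fun k => (2 * i, 2 * k + 1)

/-- The instance of a sign matrix. -/
def inst (M : List (List Bool)) : Inst := (vts M, edg true M, edg false M)

theorem mem_vts {M : List (List Bool)} {v : ℕ} : v ∈ vts M ↔
    (∃ i < M.length, v = 2 * i) ∨ ∃ k < wid M + wid M, v = 2 * k + 1 := by
  simp only [vts, List.mem_append, List.mem_map, List.mem_range, eq_comm]

theorem mem_edg {M : List (List Bool)} {s : Bool} {u v : ℕ} : (u, v) ∈ edg s M ↔
    ∃ i k, i < M.length ∧ k < wid M + wid M ∧ isShort M i k = s ∧ u = 2 * i ∧ v = 2 * k + 1 := by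
  simp only [edg, List.mem_flatMap, List.mem_map, List.mem_range, List.mem_filter,
    decide_eq_true_eq, Prod.mk.injEq]
  constructor
  · rintro ⟨i, hi, k, ⟨hk, hs⟩, h1, h2⟩
    exact ⟨i, k, hi, hk, hs, h1.symm, h2.symm⟩
  · rintro ⟨i, k, hi, hk, hs, h1, h2⟩
    exact ⟨i, hi, k, ⟨hk, hs⟩, h1.symm, h2.symm⟩

theorem wf_inst (M : List (List Bool)) (s : Bool) : GCode.WF (vts M, edg s M) := by
  rintro ⟨u, v⟩ he
  obtain ⟨i, k, hi, hk, -, rfl, rfl⟩ := mem_edg.1 he
  refine ⟨mem_vts.2 (Or.inl ⟨i, hi, rfl⟩), mem_vts.2 (Or.inr ⟨k, hk, rfl⟩), ?_⟩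
  simp only
  omega

/-- Adjacency in the two graphs. -/
theorem adj_iff {M : List (List Bool)} {s : Bool} {u v : {v : ℕ // v ∈ vts M}} :
    (GCode.graph (vts M, edg s M)).Adj u v ↔
      (∃ i k, i < M.length ∧ k < wid M + wid M ∧ isShort M i k = s ∧ u.1 = 2 * i ∧
        v.1 = 2 * k + 1) ∨
      (∃ i k, i < M.length ∧ k < wid M + wid M ∧ isShort M i k = s ∧ v.1 = 2 * i ∧
        u.1 = 2 * k + 1) := by
  rw [graph_adj (wf_inst M s)]
  exact or_congr mem_edg mem_edg

theorem valid_inst (M : List (List Bool)) : Valid (inst M) := by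
  refine ⟨wf_inst M true, wf_inst M false, ?_, ?_⟩
  · rw [disjoint_iff]
    ext u v
    simp only [SimpleGraph.inf_adj, SimpleGraph.bot_adj, iff_false, not_and]
    intro h1 h2
    have h1 := adj_iff.1 h1
    have h2 := adj_iff.1 h2
    rcases h1 with ⟨i, k, hi, hk, hs, hu, hv⟩ | ⟨i, k, hi, hk, hs, hu, hv⟩ <;>
    rcases h2 with ⟨i', k', hi', hk', hs', hu', hv'⟩ | ⟨i', k', hi', hk', hs', hu', hv'⟩
    · have : i = i' := by omega
      have : k = k' := by omega
      subst_vars
      rw [hs] at hs'
      exact absurd hs' (by decide)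
    · omega
    · omega
    · have : i = i' := by omega
      have : k = k' := by omega
      subst_vars
      rw [hs] at hs'
      exact absurd hs' (by decide)
  · rw [isCompleteBipartite_iff]
    refine ⟨fun v => decide (v.1 % 2 = 0), fun u v => ?_⟩
    rw [SimpleGraph.sup_adj]
    have h1 : (shortG (inst M)).Adj u v ↔ _ := adj_iff (s := true)
    have h2 : (longG (inst M)).Adj u v ↔ _ := adj_iff (s := false)
    rw [h1, h2]
    have hu := mem_vts.1 u.2
    have hv := mem_vts.1 v.2
    constructor
    · rintro ((⟨i, k, -, -, -, hu, hv⟩ | ⟨i, k, -, -, -, hu, hv⟩) |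
        (⟨i, k, -, -, -, hu, hv⟩ | ⟨i, k, -, -, -, hu, hv⟩)) <;>
      · simp only [hu, hv, ne_eq, decide_eq_decide]
        omega
    · intro h
      rw [ne_eq, decide_eq_decide] at h
      rcases hu with ⟨i, hi, hu⟩ | ⟨k, hk, hu⟩ <;> rcases hv with ⟨i', hi', hv⟩ | ⟨k', hk', hv⟩
      · omega
      · cases hs : isShort M i k'
        · exact Or.inr (Or.inl ⟨i, k', hi, hk', hs, hu, hv⟩)
        · exact Or.inl (Or.inl ⟨i, k', hi, hk', hs, hu, hv⟩)
      · cases hs : isShort M i' k
        · exact Or.inr (Or.inr ⟨i', k, hi', hk, hs, hv, hu⟩)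
        · exact Or.inl (Or.inr ⟨i', k, hi', hk, hs, hv, hu⟩)
      · omega

theorem realizable_of_SRN {m : ℕ} {M : List (List Bool)} (hM : Rect m M) (h : SRN 2 M) :
    Realizable (shortG (inst M)) (longG (inst M)) := by
  obtain ⟨p, a, b, hab⟩ := circles_of_SRN h
  let P : {v : ℕ // v ∈ (inst M).1} → Plane := fun v =>
    if v.1 % 2 = 0 then p (v.1 / 2) else if (v.1 / 2) % 2 = 0 then a (v.1 / 2 / 2)
      else b (v.1 / 2 / 2)
  have key : ∀ u v : {v : ℕ // v ∈ (inst M).1}, ∀ i k s, i < M.length → k < wid M + wid M →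
      isShort M i k = s → u.1 = 2 * i → v.1 = 2 * k + 1 →
      (s = true → dist (P u) (P v) < 1) ∧ (s = false → 1 < dist (P u) (P v)) := by
    intro u v i k s hi hk hs hu hv
    have hj : k / 2 < M[i].length := by rw [wid_eq hM hi]; omega
    have h1 : P u = p i := by
      simp only [P, hu]
      rw [if_pos (by omega)]
      congr 1
      omega
    have h3 : v.1 / 2 = k := by omega
    have h2 : P v = if k % 2 = 0 then a (k / 2) else b (k / 2) := by
      simp only [P]
      rw [if_neg (by omega), h3]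
    rw [h1, h2]
    unfold isShort at hs
    rw [ent_eq hi hj] at hs
    obtain ⟨h4, h5⟩ := hab i hi (k / 2) hj
    by_cases hk2 : k % 2 = 0
    · rw [if_pos hk2]
      simp only [hk2, decide_true] at hs
      cases hMe : M[i][k / 2]
      · rw [hMe] at hs
        subst hs
        exact ⟨fun h => absurd h (by decide), fun _ => (h5 hMe).1⟩
      · rw [hMe] at hs
        subst hs
        exact ⟨fun _ => (h4 hMe).1, fun h => absurd h (by decide)⟩
    · rw [if_neg hk2]
      simp only [hk2, decide_false] at hs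
      cases hMe : M[i][k / 2]
      · rw [hMe] at hs
        subst hs
        exact ⟨fun _ => (h5 hMe).2, fun h => absurd h (by decide)⟩
      · rw [hMe] at hs
        subst hs
        exact ⟨fun h => absurd h (by decide), fun _ => (h4 hMe).2⟩
  have : Finite {v : ℕ // v ∈ (inst M).1} := (List.finite_toSet (inst M).1)
  refine exists_nondegenerate _ _ P (fun u v huv => ?_) (fun u v huv => ?_)
  · have huv := adj_iff.1 huv
    rcases huv with ⟨i, k, hi, hk, hs, hu, hv⟩ | ⟨i, k, hi, hk, hs, hu, hv⟩
    · exact (key u v i k true hi hk hs hu hv).1 rfl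
    · rw [dist_comm]
      exact (key v u i k true hi hk hs hu hv).1 rfl
  · have huv := adj_iff.1 huv
    rcases huv with ⟨i, k, hi, hk, hs, hu, hv⟩ | ⟨i, k, hi, hk, hs, hu, hv⟩
    · exact (key u v i k false hi hk hs hu hv).2 rfl
    · rw [dist_comm]
      exact (key v u i k false hi hk hs hu hv).2 rfl

theorem SR_of_realizable {m : ℕ} {M : List (List Bool)} (hM : Rect m M)
    (h : Realizable (shortG (inst M)) (longG (inst M))) : SR 3 M := by
  classical
  obtain ⟨P, -, hS, hL⟩ := h
  let Q : ℕ → Plane := fun v => if h : v ∈ vts M then P ⟨v, h⟩ else 0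
  have hQ : ∀ i k, i < M.length → k < wid M + wid M →
      (isShort M i k = true → dist (Q (2 * i)) (Q (2 * k + 1)) ≤ 1) ∧
      (isShort M i k = false → 1 < dist (Q (2 * i)) (Q (2 * k + 1))) := by
    intro i k hi hk
    have m1 : 2 * i ∈ vts M := mem_vts.2 (Or.inl ⟨i, hi, rfl⟩)
    have m2 : 2 * k + 1 ∈ vts M := mem_vts.2 (Or.inr ⟨k, hk, rfl⟩)
    simp only [Q, dif_pos m1, dif_pos m2]
    constructor
    · intro hs
      exact hS ⟨_, m1⟩ ⟨_, m2⟩ (adj_iff.2 (Or.inl ⟨i, k, hi, hk, hs, rfl, rfl⟩))
    · intro hs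
      exact hL ⟨_, m1⟩ ⟨_, m2⟩ (adj_iff.2 (Or.inl ⟨i, k, hi, hk, hs, rfl, rfl⟩))
  refine SR_of_circles (p := fun i => Q (2 * i)) (a := fun j => Q (2 * (2 * j) + 1))
    (b := fun j => Q (2 * (2 * j + 1) + 1)) fun i hi j hj => ?_
  have hjw : j < wid M := by rw [← wid_eq hM hi]; exact hj
  have h1 := hQ i (2 * j) hi (by omega)
  have h2 := hQ i (2 * j + 1) hi (by omega)
  have e1 : isShort M i (2 * j) = M[i][j] := by
    unfold isShort
    rw [show 2 * j / 2 = j by omega, show 2 * j % 2 = 0 by omega, ent_eq hi hj]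
    simp
  have e2 : isShort M i (2 * j + 1) = !M[i][j] := by
    unfold isShort
    rw [show (2 * j + 1) / 2 = j by omega, show (2 * j + 1) % 2 = 1 by omega, ent_eq hi hj]
    simp
  rw [e1] at h1
  rw [e2] at h2
  constructor
  · intro hMe
    exact ⟨h1.1 hMe, h2.2 (by rw [hMe]; rfl)⟩
  · intro hMe
    exact ⟨h1.2 hMe, h2.1 (by rw [hMe]; rfl)⟩

/-! ### Polynomial time -/

theorem poly_inst : Poly inst := by
  have hR : Poly (fun M : List (List Bool) => List.range M.length) := Poly.range_length Poly.id
  have hW : Poly (fun M : List (List Bool) => List.range (wid M + wid M)) :=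
    (UPoly.add (upoly_wid Poly.id) (upoly_wid Poly.id)).range
  have hV : Poly vts := by
    unfold vts
    refine Poly.append (Poly.map (F := fun _ i => 2 * i) hR
      (Poly.mul (Poly.const 2) (Poly.snd Poly.id))) (Poly.map (F := fun _ k => 2 * k + 1) hW
      (Poly.add (Poly.mul (Poly.const 2) (Poly.snd Poly.id)) (Poly.const 1)))
  have hE : ∀ s : Bool, Poly (edg s) := by
    intro s
    unfold edg
    have hk : Poly (fun p : (List (List Bool) × ℕ) × ℕ => p.2) := Poly.snd Poly.id
    have hi : Poly (fun p : (List (List Bool) × ℕ) × ℕ => p.1.2) := Poly.snd (Poly.fst Poly.id)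
    have hM : Poly (fun p : (List (List Bool) × ℕ) × ℕ => p.1.1) := Poly.fst (Poly.fst Poly.id)
    have hs : Poly (fun p : (List (List Bool) × ℕ) × ℕ => isShort p.1.1 p.1.2 p.2) := by
      unfold isShort
      refine (Poly.decide_eq (poly_ent hM hi (Poly.div hk (Poly.const 2)))
        (Poly.decide_eq (Poly.mod hk (Poly.const 2)) (Poly.const 0))).congr fun p => ?_
      rw [Bool.eq_iff_iff, decide_eq_true_eq, beq_iff_eq]
    refine Poly.flatMap (F := fun M i => ((List.range (wid M + wid M)).filter fun k =>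
      decide (isShort M i k = s)).map fun k => (2 * i, 2 * k + 1)) hR ?_
    refine Poly.map (F := fun (p : List (List Bool) × ℕ) k => (2 * p.2, 2 * k + 1))
      (Poly.filter (p := fun (p : List (List Bool) × ℕ) k => decide (isShort p.1 p.2 k = s))
        (hW.comp (Poly.fst Poly.id)) (Poly.decide_eq hs (Poly.const s))) ?_
    exact Poly.pair (Poly.mul (Poly.const 2) hi)
      (Poly.add (Poly.mul (Poly.const 2) hk) (Poly.const 1))
  exact Poly.pair hV (Poly.pair (hE true) (hE false))

/-- `∃ℝ`-hardness. -/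
theorem hard_of {patOf : List Con → Pat} (h : IsPatOf patOf) : ERHard (lang BipLongShort) := by
  refine ERHard.of_sys (f := fun S => inst (matOf patOf 0 S))
    (poly_inst.comp (h.poly_matOf 0)) fun S => ?_
  obtain ⟨m, hm⟩ := rect_matOf patOf 0 S
  constructor
  · intro hS
    exact ⟨valid_inst _, realizable_of_SRN hm (h.srn (k := 0) hS)⟩
  · rintro ⟨-, hS⟩
    exact h.sat (k := 0) (SR_of_realizable hm hS)

end Pool.Agent.NPC.L5h57.LS
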